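import Mathlib
import Pool.Agent.R31.PlaneHomology

/-!
# Large non-separating independent sets in duals of link diagrams (MP_1d20a2_co)

There is a constant `δ > 0` such that for every reduced non-split link diagram with `n` crossings
the dual graph has a non-separating independent set of at least `δ n` vertices.
-/

set_option autoImplicit false

namespace Pool.Agent.Results.MP_1d20a2_co.LinearNonSeparating

open SimpleGraph Pool.Agent.R31.PlaneHomology

/-! ### Definitions -/

/-- The projection `G(D)` of a link diagram with `n` crossings, as a 4-valent graph drawn on a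
surface. The crossings are the elements of `Fin n`; the four half-edges at the crossing `c` are
`(c, 0), (c, 1), (c, 2), (c, 3)` in their cyclic order around `c`; two half-edges form an edge (a
strand between two crossings, possibly a loop) when `glue` exchanges them. -/
structure Projection (n : ℕ) where
  /-- the other half of the edge -/
  glue : Equiv.Perm (Fin n × ZMod 4)
  glue_glue : ∀ d, glue (glue d) = d
  glue_ne : ∀ d, glue d ≠ d

/-- The next half-edge around the same crossing. -/
def rot {n : ℕ} : Equiv.Perm (Fin n × ZMod 4) :=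
  Equiv.prodCongr (Equiv.refl _) (Equiv.addRight 1)

namespace Projection

variable {n : ℕ} (D : Projection n)

/-- Following the boundary of a complementary region: go along the edge of the half-edge `d` to
the next crossing and turn to the neighbouring half-edge there. -/
def next : Equiv.Perm (Fin n × ZMod 4) := D.glue.trans rot

/-- The complementary regions: the cycles of `next`. -/
abbrev Region : Type := Quotient (Equiv.Perm.SameCycle.setoid D.next)

/-- The region on a fixed side of the half-edge `d`; the region on the other side of the same edge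
is `D.region (D.glue d)`. -/
def region (d : Fin n × ZMod 4) : D.Region := Quotient.mk _ d

/-- The simple graph underlying `G(D)`: two crossings are adjacent if some edge joins them. -/
def crossingGraph : SimpleGraph (Fin n) where
  Adj c c' := c ≠ c' ∧ ∃ i j, D.glue (c, i) = (c', j)
  symm := ⟨by
    rintro c c' ⟨h, i, j, hij⟩
    exact ⟨h.symm, j, i, by rw [← hij, D.glue_glue]⟩⟩
  loopless := ⟨fun c h => h.1 rfl⟩

/-- `D` is non-split: `G(D)` is connected. -/
def NonSplit : Prop := D.crossingGraph.Connected

/-- `D` is drawn in the plane (sphere): Euler's formula `n - 2n + (number of regions) = 2`. -/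
def Planar : Prop := Nat.card D.Region = n + 2

/-- `c` is a cut vertex: deleting it leaves a disconnected graph. -/
def IsCutVertex (c : Fin n) : Prop := ¬ (D.crossingGraph.induce {x | x ≠ c}).Preconnected

/-- `D` is reduced: no vertex of `G(D)` is a cut vertex. -/
def Reduced : Prop := ∀ c, ¬ D.IsCutVertex c

/-- The dual graph `Γ(D)` (without recording multiplicities): its vertices are the regions, and the
two regions on the two sides of an edge are adjacent. -/
def dual : SimpleGraph D.Region where
  Adj R R' := R ≠ R' ∧ ∃ d, D.region d = R ∧ D.region (D.glue d) = R'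
  symm := ⟨by
    rintro R R' ⟨h, d, h1, h2⟩
    exact ⟨h.symm, D.glue d, h2, by rw [D.glue_glue, h1]⟩⟩
  loopless := ⟨fun R h => h.1 rfl⟩

/-! ### Basic facts -/

theorem region_next (d : Fin n × ZMod 4) : D.region (D.next d) = D.region d := by
  apply Quotient.sound
  change D.next.SameCycle (D.next d) d
  exact Equiv.Perm.sameCycle_apply_left.mpr (Equiv.Perm.SameCycle.refl _ _)

theorem region_rot (d : Fin n × ZMod 4) : D.region (rot d) = D.region (D.glue d) := by
  have h := D.region_next (D.glue d)
  rw [next, Equiv.trans_apply, D.glue_glue] at h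
  exact h

theorem region_rot_glue (d : Fin n × ZMod 4) : D.region (rot (D.glue d)) = D.region d := by
  rw [region_rot, D.glue_glue]

theorem region_surj (R : D.Region) : ∃ d, D.region d = R := Quotient.exists_rep R

theorem rot_mk (c : Fin n) (i : ZMod 4) : rot (c, i) = (c, i + 1) := rfl

theorem rot_fst (d : Fin n × ZMod 4) : (rot d).1 = d.1 := rfl

theorem region_eq_of_fixed {d d' : Fin n × ZMod 4} (h : D.next d = d)
    (h' : D.region d' = D.region d) : d' = d := by
  have h2 : D.next.SameCycle d' d := Quotient.exact h'
  obtain ⟨k, hk⟩ := h2.symm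
  rw [← hk]
  exact Equiv.Perm.zpow_apply_eq_self_of_apply_eq_self h k

/-- Every property of half-edges that is preserved by `glue` and `rot` holds everywhere. -/
theorem conn (hns : D.NonSplit) (P : Fin n × ZMod 4 → Prop) (hne : ∃ d, P d)
    (h1 : ∀ d, P d → P (D.glue d)) (h2 : ∀ d, P d → P (rot d)) : ∀ d, P d := by
  have hrot : ∀ c i j, P (c, i) → P (c, j) := by
    intro c i j h
    have h3 : ∀ k : ℕ, P (c, i + k) := by
      intro k
      induction k with
      | zero => simpa using h
      | succ k ih =>
        have := h2 _ ih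
        rw [rot_mk] at this
        rw [Nat.cast_succ, ← add_assoc]
        exact this
    have h4 := h3 (j - i).val
    rw [ZMod.natCast_zmod_val, add_sub_cancel] at h4
    exact h4
  obtain ⟨⟨c₀, i₀⟩, h₀⟩ := hne
  rintro ⟨c, i⟩
  obtain ⟨p⟩ := hns.preconnected c₀ c
  have : ∀ (a b : Fin n) (p : D.crossingGraph.Walk a b), P (a, 0) → P (b, 0) := by
    intro a b p
    induction p with
    | nil => exact fun h => h
    | cons hadj _ ih =>
      intro h
      obtain ⟨_, i', j', hij⟩ := hadj
      apply ih
      have h3 := h1 _ (hrot _ _ i' h)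
      rw [hij] at h3
      exact hrot _ _ _ h3
  exact hrot _ _ _ (this c₀ c p (hrot _ _ _ h₀))

/-! ### Cut vertices -/

open Classical in
/-- If the same region lies at two opposite corners of the crossing `c`, which is not a cut vertex,
then one of the two other regions at `c` has only one corner. -/
theorem opposite_corners (hns : D.NonSplit) (hpl : D.Planar) (c : Fin n)
    (hc : ¬ D.IsCutVertex c) (i : ZMod 4) (h : D.region (c, i) = D.region (c, i + 2)) :
    D.next (c, i + 1) = (c, i + 1) ∨ D.next (c, i + 3) = (c, i + 3) := by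
  by_contra hcon
  rw [not_or] at hcon
  obtain ⟨hl1, hl2⟩ := hcon
  have e13 : i + 2 + 1 = i + 3 := by ring
  have e40 : i + 3 + 1 = i := by
    have : (3 : ZMod 4) + 1 = 0 := by decide
    rw [add_assoc, this, add_zero]
  have n01 : i ≠ i + 1 := by
    intro h'; have : (1 : ZMod 4) = 0 := by simpa using h'.symm
    exact absurd this (by decide)
  have n02 : i ≠ i + 2 := by
    intro h'; have : (2 : ZMod 4) = 0 := by simpa using h'.symm
    exact absurd this (by decide)
  have n03 : i ≠ i + 3 := by
    intro h'; have : (3 : ZMod 4) = 0 := by simpa using h'.symm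
    exact absurd this (by decide)
  have n12 : i + 1 ≠ i + 2 := by
    intro h'; have : (1 : ZMod 4) = 2 := add_left_cancel h'
    exact absurd this (by decide)
  have n13 : i + 1 ≠ i + 3 := by
    intro h'; have : (1 : ZMod 4) = 3 := add_left_cancel h'
    exact absurd this (by decide)
  have n23 : i + 2 ≠ i + 3 := by
    intro h'; have : (2 : ZMod 4) = 3 := add_left_cancel h'
    exact absurd this (by decide)
  have all4 : ∀ j : ZMod 4, j = i ∨ j = i + 1 ∨ j = i + 2 ∨ j = i + 3 := by
    intro j
    have : ∀ k : ZMod 4, k = 0 ∨ k = 1 ∨ k = 2 ∨ k = 3 := by decide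
    rcases this (j - i) with hk | hk | hk | hk
    · left; rw [← sub_eq_zero]; exact hk
    · right; left; rw [← hk]; ring
    · right; right; left; rw [← hk]; ring
    · right; right; right; rw [← hk]; ring
  -- split the crossing
  set a : Fin n × ZMod 4 := (c, i) with ha
  set b : Fin n × ZMod 4 := (c, i + 2) with hb
  have hab : a ≠ b := fun h' => n02 (congrArg Prod.snd h')
  let σ' : Equiv.Perm (Fin n × ZMod 4) := rot.trans (Equiv.swap a b)
  have hσ' : ∀ d, σ' d = Equiv.swap a b (rot d) := fun d => rfl
  have hφ' : ∀ d, σ' (D.glue d) = Equiv.swap a b (D.next d) := fun d => rfl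
  -- the second half of the boundary of the region
  obtain ⟨m₀, hm₀⟩ : ∃ m, (D.next ^ m) b = a := by
    obtain ⟨m, _, hm⟩ := (show D.next.SameCycle b a from Quotient.exact h.symm).exists_pow_eq'
    exact ⟨m, hm⟩
  let m := Nat.find (⟨m₀, hm₀⟩ : ∃ m, (D.next ^ m) b = a)
  have hm : (D.next ^ m) b = a := Nat.find_spec (⟨m₀, hm₀⟩ : ∃ m, (D.next ^ m) b = a)
  have hmin : ∀ t < m, (D.next ^ t) b ≠ a := fun t ht =>
    Nat.find_min (⟨m₀, hm₀⟩ : ∃ m, (D.next ^ m) b = a) ht
  have hmpos : 0 < m := by
    rcases Nat.eq_zero_or_pos m with h0 | h0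
    · rw [h0] at hm
      exact absurd hm.symm hab
    · exact h0
  have hnb : ∀ t, 0 < t → t < m → (D.next ^ t) b ≠ b := by
    intro t ht ht' hcon
    apply hmin (m - t) (by omega)
    have : (D.next ^ (m - t)) ((D.next ^ t) b) = a := by
      rw [← Equiv.Perm.mul_apply, ← pow_add, Nat.sub_add_cancel ht'.le, hm]
    rwa [hcon] at this
  let W : Fin n × ZMod 4 → Prop := fun d => ∃ t < m, (D.next ^ t) b = d
  have hWr : ∀ t : ℕ, D.region ((D.next ^ t) b) = D.region b := by
    intro t
    induction t with
    | zero => rfl
    | succ t ih => rw [pow_succ', Equiv.Perm.mul_apply, D.region_next, ih]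
  have hWcl : ∀ d, W d → W (σ' (D.glue d)) := by
    rintro _ ⟨t, ht, rfl⟩
    rw [hφ']
    by_cases ht' : t + 1 = m
    · have : D.next ((D.next ^ t) b) = a := by
        rw [← Equiv.Perm.mul_apply, ← pow_succ', ht', hm]
      rw [this, Equiv.swap_apply_left]
      exact ⟨0, hmpos, rfl⟩
    · refine ⟨t + 1, by omega, ?_⟩
      have hs : D.next ((D.next ^ t) b) = (D.next ^ (t + 1)) b := by
        rw [pow_succ', Equiv.Perm.mul_apply]
      rw [hs, Equiv.swap_apply_of_ne_of_ne]
      · exact hmin _ (by omega)
      · exact hnb _ (by omega) (by omega)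
  let ψ : Equiv.Perm (Fin n × ZMod 4) := D.glue.trans σ'
  have hWcl' : ∀ d, ¬ W d → ¬ W (σ' (D.glue d)) := by
    intro d hd hd'
    apply hd
    have := Equiv.Perm.perm_symm_on_of_perm_on_finite (f := ψ) (p := W) (fun d hd => hWcl d hd)
      (x := ψ d) hd'
    rwa [Equiv.symm_apply_apply] at this
  -- the new face map and the new vertex map
  let f' : Fin n × ZMod 4 → Option D.Region := fun d => if W d then none else some (D.region d)
  let v' : Fin n × ZMod 4 → Option (Fin n) := fun d =>
    if d.1 = c ∧ (d.2 = i + 2 ∨ d.2 = i + 3) then none else some d.1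
  have hf' : ∀ d, f' (σ' (D.glue d)) = f' d := by
    intro d
    by_cases hd : W d
    · change (if W _ then none else some _) = (if W d then none else some _)
      rw [if_pos hd, if_pos (hWcl d hd)]
    · change (if W _ then none else some _) = (if W d then none else some _)
      rw [if_neg hd, if_neg (hWcl' d hd)]
      congr 1
      rw [hφ', ← D.region_next d]
      by_cases h1 : D.next d = a
      · rw [h1, Equiv.swap_apply_left, h]
      · by_cases h2 : D.next d = b
        · rw [h2, Equiv.swap_apply_right, h]
        · rw [Equiv.swap_apply_of_ne_of_ne h1 h2]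
  have hf's : Function.Surjective f' := by
    rintro (_ | R)
    · refine ⟨b, ?_⟩
      change (if W b then none else some _) = none
      rw [if_pos ⟨0, hmpos, rfl⟩]
    · by_cases hR : R = D.region a
      · refine ⟨a, ?_⟩
        change (if W a then none else some _) = some R
        rw [if_neg, hR]
        rintro ⟨t, ht, hta⟩
        exact hmin t ht hta
      · obtain ⟨d, hd⟩ := D.region_surj R
        refine ⟨d, ?_⟩
        change (if W d then none else some _) = some R
        rw [if_neg, hd]
        rintro ⟨t, ht, hta⟩
        apply hR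
        rw [← hd, ← hta, hWr, h]
  have hv' : ∀ d, v' (σ' d) = v' d := by
    rintro ⟨x, j⟩
    rw [hσ', rot_mk]
    by_cases hx : x = c
    · subst hx
      rcases all4 j with hj | hj | hj | hj
      · rw [hj, Equiv.swap_apply_of_ne_of_ne]
        · simp [v', n12, n13, n02, n03]
        · exact fun h' => n01 (congrArg Prod.snd h').symm
        · exact fun h' => n12 (congrArg Prod.snd h')
      · have : ((x, j + 1) : Fin n × ZMod 4) = b := by
          rw [hj, hb, add_assoc]; congr 2
        rw [this, Equiv.swap_apply_right, hj, ha]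
        simp [v', n12, n13, n02, n03]
      · rw [hj, e13, Equiv.swap_apply_of_ne_of_ne]
        · simp [v']
        · exact fun h' => n03 (congrArg Prod.snd h').symm
        · exact fun h' => n23 (congrArg Prod.snd h').symm
      · have : ((x, j + 1) : Fin n × ZMod 4) = a := by
          rw [hj, ha, e40]
        rw [this, Equiv.swap_apply_left, hj, hb]
        simp [v']
    · rw [Equiv.swap_apply_of_ne_of_ne]
      · simp [v', hx]
      · exact fun h' => hx (congrArg Prod.fst h')
      · exact fun h' => hx (congrArg Prod.fst h')
  have hv's : Function.Surjective v' := by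
    rintro (_ | x)
    · exact ⟨(c, i + 2), by simp [v']⟩
    · by_cases hx : x = c
      · exact ⟨(x, i), by simp [v', n02, n03]⟩
      · exact ⟨(x, 0), by simp [v', hx]⟩
  -- the split map is not connected
  have : Nonempty (Fin n × ZMod 4) := ⟨(c, 0)⟩
  have : Fintype D.Region := Fintype.ofFinite _
  have hncon : ¬ ∀ P : Fin n × ZMod 4 → Prop, (∃ d, P d) → (∀ d, P d → P (D.glue d)) →
      (∀ d, P d → P (σ' d)) → ∀ d, P d := by
    intro hP
    have := euler_le D.glue σ' v' f' D.glue_glue D.glue_ne hv' hf' hv's hf's hP
    rw [Fintype.card_option, Fintype.card_option, Fintype.card_prod, ZMod.card, Fintype.card_fin,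
      ← Nat.card_eq_fintype_card (α := D.Region), hpl] at this
    omega
  push Not at hncon
  obtain ⟨P, hPne, hPg, hPσ, d₁, hd₁⟩ := hncon
  have hPg' : ∀ d, P (D.glue d) → P d := by
    intro d hd
    have := hPg _ hd
    rwa [D.glue_glue] at this
  have hPσ' : ∀ d, P (σ' d) → P d := by
    intro d hd
    have := Equiv.Perm.perm_symm_on_of_perm_on_finite (f := σ') (p := P) (fun d hd => hPσ d hd)
      (x := σ' d) hd
    rwa [Equiv.symm_apply_apply] at this
  have hnc : (D.crossingGraph.induce {x | x ≠ c}).Preconnected := by
    by_contra h'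
    exact hc h'
  -- no side avoids all the other crossings
  have key : ∀ Q : Fin n × ZMod 4 → Prop, (∃ d, Q d) → (∀ d, Q d → Q (D.glue d)) →
      (∀ d, Q d → Q (σ' d)) → (∃ d, ¬ Q d) → (∀ x, x ≠ c → ∀ j, ¬ Q (x, j)) → False := by
    rintro Q ⟨⟨x, j⟩, hQ⟩ hQg hQσ ⟨⟨y, k⟩, hQn⟩ hQO
    have hxc : x = c := by
      by_contra hx
      exact hQO x hx j hQ
    subst hxc
    have s0 : Q (x, i) → Q (x, i + 1) := by
      intro h'
      have := hQσ _ h'
      rwa [hσ', rot_mk, Equiv.swap_apply_of_ne_of_ne] at this
      · exact fun h' => n01 (congrArg Prod.snd h').symm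
      · exact fun h' => n12 (congrArg Prod.snd h')
    have s1 : Q (x, i + 1) → Q (x, i) := by
      intro h'
      have := hQσ _ h'
      rw [hσ', rot_mk, add_assoc, show (1 : ZMod 4) + 1 = 2 by decide, ← hb,
        Equiv.swap_apply_right] at this
      exact this
    have s2 : Q (x, i + 2) → Q (x, i + 3) := by
      intro h'
      have := hQσ _ h'
      rwa [hσ', rot_mk, e13, Equiv.swap_apply_of_ne_of_ne] at this
      · exact fun h' => n03 (congrArg Prod.snd h').symm
      · exact fun h' => n23 (congrArg Prod.snd h').symm
    have s3 : Q (x, i + 3) → Q (x, i + 2) := by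
      intro h'
      have := hQσ _ h'
      rw [hσ', rot_mk, e40, ← ha, Equiv.swap_apply_left] at this
      exact this
    have hin : ∀ d, Q d → ∃ j, D.glue d = (x, j) := by
      intro d hd
      have h1 := hQg d hd
      refine ⟨(D.glue d).2, ?_⟩
      by_contra hne
      have h2 : (D.glue d).1 ≠ x := fun h' => hne (Prod.ext h' rfl)
      exact hQO _ h2 (D.glue d).2 h1
    have l1 : D.glue (x, i + 1) ≠ (x, i) := by
      intro h'
      apply hl1
      rw [next, Equiv.trans_apply, h', rot_mk]
    have l2 : D.glue (x, i + 3) ≠ (x, i + 2) := by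
      intro h'
      apply hl2
      rw [next, Equiv.trans_apply, h', rot_mk, e13]
    have t1 : Q (x, i) → Q (x, i + 2) := by
      intro h'
      have h1 := s0 h'
      obtain ⟨j', hj'⟩ := hin _ h1
      have h2 := hQg _ h1
      rw [hj'] at h2
      rcases all4 j' with e | e | e | e
      · rw [e] at hj'; exact absurd hj' l1
      · rw [e] at hj'; exact absurd hj' (D.glue_ne _)
      · rw [e] at h2; exact h2
      · rw [e] at h2; exact s3 h2
    have t2 : Q (x, i + 2) → Q (x, i) := by
      intro h'
      have h1 := s2 h'
      obtain ⟨j', hj'⟩ := hin _ h1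
      have h2 := hQg _ h1
      rw [hj'] at h2
      rcases all4 j' with e | e | e | e
      · rw [e] at h2; exact h2
      · rw [e] at h2; exact s1 h2
      · rw [e] at hj'; exact absurd hj' l2
      · rw [e] at hj'; exact absurd hj' (D.glue_ne _)
    have hi : Q (x, i) := by
      rcases all4 j with e | e | e | e
      · rw [e] at hQ; exact hQ
      · rw [e] at hQ; exact s1 hQ
      · rw [e] at hQ; exact t2 hQ
      · rw [e] at hQ; exact t2 (s3 hQ)
    have hall : ∀ j, Q (x, j) := by
      intro j
      rcases all4 j with e | e | e | e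
      · rw [e]; exact hi
      · rw [e]; exact s0 hi
      · rw [e]; exact t1 hi
      · rw [e]; exact s2 (t1 hi)
    have hyx : x ≠ y := by
      rintro rfl
      exact hQn (hall k)
    obtain ⟨p⟩ := hns.preconnected x y
    cases p with
    | nil => exact hyx rfl
    | cons hadj _ =>
      obtain ⟨hne, i', j', hij⟩ := hadj
      have h1 := hQg _ (hall i')
      rw [hij] at h1
      exact hQO _ hne.symm _ h1
  -- the other crossings are on one side
  have hconst : ∀ x (hx : x ≠ c) y (hy : y ≠ c) j k, P (x, j) → P (y, k) := by
    have hrot' : ∀ x, x ≠ c → ∀ j k, P (x, j) → P (x, k) := by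
      intro x hx j k h'
      have h3 : ∀ l : ℕ, P (x, j + l) := by
        intro l
        induction l with
        | zero => simpa using h'
        | succ l ih =>
          have := hPσ _ ih
          rw [hσ', rot_mk, Equiv.swap_apply_of_ne_of_ne] at this
          · rw [Nat.cast_succ, ← add_assoc]
            exact this
          · exact fun h' => hx (congrArg Prod.fst h')
          · exact fun h' => hx (congrArg Prod.fst h')
      have h4 := h3 (k - j).val
      rw [ZMod.natCast_zmod_val, add_sub_cancel] at h4
      exact h4
    have hwalk : ∀ (x y : {x : Fin n | x ≠ c}) (p : (D.crossingGraph.induce {x | x ≠ c}).Walk x y),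
        P (x.val, 0) → P (y.val, 0) := by
      intro x y p
      induction p with
      | nil => exact fun h => h
      | cons hadj _ ih =>
        intro h'
        rename_i u w _ _
        obtain ⟨_, i', j', hij⟩ := (show D.crossingGraph.Adj u.val w.val from hadj)
        apply ih
        have h3 := hPg _ (hrot' _ u.2 _ i' h')
        rw [hij] at h3
        exact hrot' _ w.2 _ _ h3
    intro x hx y hy j k h'
    obtain ⟨p⟩ := hnc ⟨x, hx⟩ ⟨y, hy⟩
    exact hrot' y hy _ _ (hwalk _ _ p (hrot' x hx _ _ h'))
  by_cases hO : ∃ x, x ≠ c ∧ ∃ j, P (x, j)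
  · obtain ⟨x, hx, j, hxj⟩ := hO
    refine key (fun d => ¬ P d) ⟨d₁, hd₁⟩ (fun d hd hd' => hd (hPg' d hd'))
      (fun d hd hd' => hd (hPσ' d hd')) ?_ ?_
    · exact ⟨(x, j), fun h' => h' hxj⟩
    · intro y hy k h'
      exact h' (hconst x hx y hy j k hxj)
  · refine key P hPne hPg hPσ ⟨d₁, hd₁⟩ ?_
    intro x hx j h'
    exact hO ⟨x, hx, j, h'⟩

/-! ### The checkerboard colouring -/

open Classical in
theorem exists_colouring (hns : D.NonSplit) (hpl : D.Planar) :
    ∃ χ : D.Region → ZMod 2, ∀ d, χ (D.region (D.glue d)) = χ (D.region d) + 1 := by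
  obtain ⟨c⟩ := hns.nonempty
  have : Nonempty (Fin n × ZMod 4) := ⟨(c, 0)⟩
  have : Fintype D.Region := Fintype.ofFinite _
  obtain ⟨x, hx⟩ := exact_of_euler D.glue rot (fun d => d.1) D.region D.glue_glue D.glue_ne
    (fun d => rfl) D.region_rot_glue (fun c => ⟨(c, 0), rfl⟩) D.region_surj (D.conn hns) (by
      rw [Fintype.card_prod, ZMod.card, Fintype.card_fin,
        ← Nat.card_eq_fintype_card (α := D.Region), hpl]
      omega) (fun _ => 1) (fun _ => rfl) (by
      intro u
      have : (Finset.univ.filter (fun d : Fin n × ZMod 4 => d.1 = u)) =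
          (Finset.univ : Finset (ZMod 4)).map ⟨fun i => (u, i), fun i j h => congrArg Prod.snd h⟩ := by
        ext ⟨a, b⟩
        simp only [Finset.mem_filter, Finset.mem_univ, true_and, Finset.mem_map]
        constructor
        · rintro rfl
          exact ⟨b, rfl⟩
        · rintro ⟨_, h⟩
          exact (congrArg Prod.fst h).symm
      rw [Finset.sum_const, this, Finset.card_map, Finset.card_univ, ZMod.card]
      decide)
  refine ⟨x, fun d => ?_⟩
  have h1 := hx d
  have h2 : x (D.region d) + 1 = x (D.region d) + (x (D.region d) + x (D.region (D.glue d))) := by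
    rw [← h1]
  rw [h2, ← add_assoc, add_self₂, zero_add]

/-! ### Connectivity of the dual graph after deleting a set of regions -/

/-- A criterion for a set of regions to be non-separating. -/
theorem connected_compl (hns : D.NonSplit) (S : Set D.Region)
    (hind : ∀ d, D.region d ∈ S → D.region (D.glue d) ∉ S)
    (hopp : ∀ d, D.region d ∈ S → D.region (rot (rot d)) ∈ S →
      D.region (rot d) = D.region (rot (rot (rot d))))
    (hne : ∀ d, D.region (D.glue d) ≠ D.region d) :
    (D.dual.induce Sᶜ).Connected := by
  classical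
  have hrot4 : ∀ d : Fin n × ZMod 4, rot (rot (rot (rot d))) = d := by
    rintro ⟨c, i⟩
    simp only [rot_mk]
    have : i + 1 + 1 + 1 + 1 = i := by
      have h4 : (1 : ZMod 4) + 1 + 1 + 1 = 0 := by decide
      calc i + 1 + 1 + 1 + 1 = i + (1 + 1 + 1 + 1) := by ring
        _ = i := by rw [h4, add_zero]
    rw [this]
  obtain ⟨c₀⟩ := hns.nonempty
  obtain ⟨d₀, hd₀⟩ : ∃ d, D.region d ∈ Sᶜ := by
    by_cases h : D.region (c₀, 0) ∈ S
    · exact ⟨_, hind _ h⟩
    · exact ⟨_, h⟩
  let Rch : D.Region → Prop := fun R =>
    ∃ h : R ∈ Sᶜ, (D.dual.induce Sᶜ).Reachable ⟨D.region d₀, hd₀⟩ ⟨R, h⟩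
  have hstep : ∀ d, Rch (D.region d) → D.region (D.glue d) ∉ S → Rch (D.region (D.glue d)) := by
    rintro d ⟨h, hr⟩ h'
    refine ⟨h', hr.trans (Adj.reachable ?_)⟩
    exact ⟨(hne d).symm, d, rfl, rfl⟩
  have hstep' : ∀ d, Rch (D.region (D.glue d)) → D.region d ∉ S → Rch (D.region d) := by
    intro d h h'
    have := hstep (D.glue d) h
    rw [D.glue_glue] at this
    exact this h'
  have s1 : ∀ d, Rch (D.region d) → D.region (rot d) ∉ S → Rch (D.region (rot d)) := by
    intro d
    rw [D.region_rot]
    exact hstep d
  have s3 : ∀ d, Rch (D.region (rot d)) → D.region d ∉ S → Rch (D.region d) := by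
    intro d
    rw [D.region_rot]
    exact hstep' d
  have s2 : ∀ d, Rch (D.region d) → D.region (rot (rot d)) ∉ S →
      Rch (D.region (rot (rot d))) := by
    intro d h h'
    by_cases h1 : D.region (rot d) ∈ S
    · by_cases h2 : D.region (rot (rot (rot d))) ∈ S
      · have := hopp (rot d) h1 h2
        rw [hrot4] at this
        rw [this]
        exact h
      · have h3 : Rch (D.region (rot (rot (rot d)))) := by
          have := s3 (rot (rot (rot d)))
          rw [hrot4] at this
          exact this h h2
        exact s3 _ h3 h'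
    · exact s1 _ (s1 _ h h1) h'
  let P : Fin n × ZMod 4 → Prop := fun d =>
    (D.region d ∉ S → Rch (D.region d)) ∧ (D.region (rot d) ∉ S → Rch (D.region (rot d))) ∧
    (D.region (rot (rot d)) ∉ S → Rch (D.region (rot (rot d)))) ∧
    (D.region (rot (rot (rot d))) ∉ S → Rch (D.region (rot (rot (rot d)))))
  have hlocal : ∀ d, Rch (D.region d) → P d := by
    intro d h
    refine ⟨fun _ => h, fun h' => s1 d h h', fun h' => s2 d h h', fun h' => ?_⟩
    have := s3 (rot (rot (rot d)))
    rw [hrot4] at this
    exact this h h'
  have hProt : ∀ d, P d → P (rot d) := by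
    rintro d ⟨h1, h2, h3, h4⟩
    refine ⟨h2, h3, h4, ?_⟩
    rw [hrot4]
    exact h1
  have hP3 : ∀ d, P (rot d) → P d := by
    intro d h
    have := hProt _ (hProt _ (hProt _ h))
    rwa [hrot4] at this
  have hPglue : ∀ d, P d → P (D.glue d) := by
    intro d h
    by_cases h1 : D.region d ∈ S
    · have h2 := hind d h1
      apply hlocal
      rw [← D.region_rot] at h2 ⊢
      exact h.2.1 h2
    · have h2 := h.1 h1
      apply hP3
      apply hlocal
      rw [D.region_rot_glue]
      exact h2
  have hall := D.conn hns P ⟨d₀, hlocal d₀ ⟨hd₀, Reachable.refl _⟩⟩ hPglue hProt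
  have hreach : ∀ R : (Sᶜ : Set D.Region), (D.dual.induce Sᶜ).Reachable ⟨D.region d₀, hd₀⟩ R := by
    rintro ⟨R, hR⟩
    obtain ⟨d, rfl⟩ := D.region_surj R
    obtain ⟨_, h⟩ := (hall d).1 hR
    exact h
  have : Nonempty (Sᶜ : Set D.Region) := ⟨⟨_, hd₀⟩⟩
  exact ⟨fun a b => (hreach a).symm.trans (hreach b)⟩

open Classical in
/-- The main construction, under the condition that a region at two opposite corners of a crossing
touches a region with only one corner there. -/
theorem exists_set (hns : D.NonSplit) (hpl : D.Planar)
    (hopp : ∀ c i, D.region (c, i) = D.region (c, i + 2) →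
      D.next (c, i + 1) = (c, i + 1) ∨ D.next (c, i + 3) = (c, i + 3)) :
    ∃ S : Set D.Region, D.dual.IsIndepSet S ∧ (D.dual.induce Sᶜ).Connected ∧
      n ≤ 32 * S.ncard := by
  have hrot4 : ∀ d : Fin n × ZMod 4, rot (rot (rot (rot d))) = d := by
    rintro ⟨c, i⟩
    simp only [rot_mk]
    have : i + 1 + 1 + 1 + 1 = i := by
      have h4 : (1 : ZMod 4) + 1 + 1 + 1 = 0 := by decide
      calc i + 1 + 1 + 1 + 1 = i + (1 + 1 + 1 + 1) := by ring
        _ = i := by rw [h4, add_zero]
    rw [this]
  obtain ⟨χ, hχ⟩ := D.exists_colouring hns hpl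
  have : Fintype D.Region := Fintype.ofFinite _
  have hχr : ∀ d, χ (D.region (rot d)) = χ (D.region d) + 1 := fun d => by
    rw [D.region_rot, hχ]
  have hne1 : ∀ a : ZMod 2, a + 1 ≠ a := by decide
  have hne : ∀ d, D.region (D.glue d) ≠ D.region d := by
    intro d h
    have := hχ d
    rw [h] at this
    exact hne1 _ this.symm
  -- the larger colour class
  obtain ⟨a, ha⟩ : ∃ a : ZMod 2, n + 2 ≤ 2 * (Finset.univ.filter (fun R => χ R = a)).card := by
    by_contra hcon
    push Not at hcon
    have h0 := hcon 0
    have h1 := hcon 1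
    have hsum : (Finset.univ.filter (fun R => χ R = 0)).card +
        (Finset.univ.filter (fun R => χ R = 1)).card = n + 2 := by
      have h2 : (Finset.univ.filter (fun R => χ R = 1)) =
          (Finset.univ.filter (fun R => ¬ χ R = 0)) := by
        ext R
        simp only [Finset.mem_filter, Finset.mem_univ, true_and]
        have : ∀ b : ZMod 2, b = 1 ↔ ¬ b = 0 := by decide
        exact this _
      rw [h2, Finset.card_filter_add_card_filter_not, Finset.card_univ,
        ← Nat.card_eq_fintype_card]
      exact hpl
    omega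
  set A := Finset.univ.filter (fun R => χ R = a) with hA
  let deg : D.Region → ℕ := fun R => (Finset.univ.filter (fun d => D.region d = R)).card
  -- corners of the colour a
  have hcorners : ∑ R ∈ A, deg R = 2 * n := by
    have h1 : ∑ R ∈ A, deg R = (Finset.univ.filter (fun d => χ (D.region d) = a)).card := by
      have := Finset.card_eq_sum_card_fiberwise (f := D.region)
        (s := Finset.univ.filter (fun d => χ (D.region d) = a)) (t := A) (by
          intro d hd
          simp only [Finset.coe_filter, Finset.mem_univ, true_and, Set.mem_ofPred_eq, hA] at hd ⊢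
          exact hd)
      rw [this]
      refine Finset.sum_congr rfl fun R hR => ?_
      change (Finset.univ.filter (fun d => D.region d = R)).card = _
      congr 1
      ext d
      simp only [Finset.mem_filter, Finset.mem_univ, true_and, hA] at hR ⊢
      constructor
      · rintro rfl
        exact ⟨hR, rfl⟩
      · exact fun h => h.2
    have h2 : (Finset.univ.filter (fun d => χ (D.region d) = a)).card =
        (Finset.univ.filter (fun d => ¬ χ (D.region d) = a)).card := by
      refine Finset.card_bij' (fun d _ => rot d) (fun d _ => rot (rot (rot d))) ?_ ?_ ?_ ?_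
      · intro d hd
        simp only [Finset.mem_filter, Finset.mem_univ, true_and] at hd ⊢
        rw [hχr, hd]
        exact hne1 a
      · intro d hd
        simp only [Finset.mem_filter, Finset.mem_univ, true_and] at hd ⊢
        rw [hχr, hχr, hχr]
        have : ∀ a b : ZMod 2, ¬ b = a → b + 1 + 1 + 1 = a := by decide
        exact this _ _ hd
      · intro d _
        exact hrot4 d
      · intro d _
        exact hrot4 d
    have h3 : (Finset.univ.filter (fun d : Fin n × ZMod 4 => χ (D.region d) = a)).card +
        (Finset.univ.filter (fun d => ¬ χ (D.region d) = a)).card = n * 4 := by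
      rw [Finset.card_filter_add_card_filter_not, Finset.card_univ, Fintype.card_prod,
        Fintype.card_fin, ZMod.card]
    omega
  -- regions of small degree
  set L := A.filter (fun R => deg R ≤ 7) with hL
  have hLcard : n ≤ 4 * L.card := by
    have h1 : 8 * (A.filter (fun R => ¬ deg R ≤ 7)).card ≤ 2 * n := by
      rw [← hcorners, mul_comm, ← smul_eq_mul]
      refine le_trans (Finset.card_nsmul_le_sum _ deg 8 ?_)
        (Finset.sum_le_sum_of_subset (Finset.filter_subset _ A))
      intro R hR
      have := (Finset.mem_filter.mp hR).2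
      omega
    have h2 : L.card + (A.filter (fun R => ¬ deg R ≤ 7)).card = A.card :=
      Finset.card_filter_add_card_filter_not _
    omega
  -- a maximal independent subset
  let HA : D.Region → D.Region → Prop := fun R R' =>
    ∃ d, D.region d = R ∧ D.region (rot (rot d)) = R'
  have HAsymm : ∀ R R', HA R R' → HA R' R := by
    rintro R R' ⟨d, h1, h2⟩
    refine ⟨rot (rot d), h2, ?_⟩
    rw [hrot4]
    exact h1
  let fam := L.powerset.filter (fun T => ∀ R ∈ T, ∀ R' ∈ T, R ≠ R' → ¬ HA R R')
  obtain ⟨T, hT, hTmax⟩ := Finset.exists_max_image fam Finset.card ⟨∅, by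
    simp [fam]⟩
  simp only [fam, Finset.mem_filter, Finset.mem_powerset] at hT
  obtain ⟨hTL, hTind⟩ := hT
  have hcover : L ⊆ T.biUnion (fun R => insert R
      ((Finset.univ.filter (fun d => D.region d = R)).image (fun d => D.region (rot (rot d))))) := by
    intro R hR
    rw [Finset.mem_biUnion]
    by_cases hRT : R ∈ T
    · exact ⟨R, hRT, Finset.mem_insert_self _ _⟩
    · by_contra hcon
      push Not at hcon
      have hno : ∀ R' ∈ T, ¬ HA R' R := by
        rintro R' hR' ⟨d, h1, h2⟩
        apply hcon R' hR'
        apply Finset.mem_insert_of_mem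
        rw [Finset.mem_image]
        exact ⟨d, by simp [h1], h2⟩
      have hmem : insert R T ∈ fam := by
        simp only [fam, Finset.mem_filter, Finset.mem_powerset]
        refine ⟨Finset.insert_subset hR hTL, ?_⟩
        intro R₁ h₁ R₂ h₂ hne'
        rw [Finset.mem_insert] at h₁ h₂
        rcases h₁ with rfl | h₁
        · rcases h₂ with rfl | h₂
          · exact absurd rfl hne'
          · exact fun h => hno _ h₂ (HAsymm _ _ h)
        · rcases h₂ with rfl | h₂
          · exact hno _ h₁
          · exact hTind _ h₁ _ h₂ hne'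
      have := hTmax _ hmem
      rw [Finset.card_insert_of_notMem hRT] at this
      omega
  have hLT : L.card ≤ T.card * 8 := by
    refine le_trans (Finset.card_le_card hcover) (Finset.card_biUnion_le_card_mul _ _ _ ?_)
    intro R hR
    refine le_trans (Finset.card_insert_le _ _) ?_
    have h1 : deg R ≤ 7 := (Finset.mem_filter.mp (hTL hR)).2
    have h2 := Finset.card_image_le (s := Finset.univ.filter (fun d => D.region d = R))
      (f := fun d => D.region (rot (rot d)))
    change _ ≤ deg R at h2
    omega
  -- regions with one corner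
  let M : D.Region → Prop := fun R => ∃ d, D.next d = d ∧ D.region d = R
  let N : D.Region → Prop := fun R => R ∈ T ∧ ∀ R', D.dual.Adj R R' → ¬ M R'
  let S : Set D.Region := {R | M R ∨ N R}
  have hTχ : ∀ R ∈ T, χ R = a := by
    intro R hR
    exact (Finset.mem_filter.mp (Finset.mem_filter.mp (hTL hR)).1).2
  have hadj : ∀ d, D.dual.Adj (D.region d) (D.region (D.glue d)) := fun d =>
    ⟨(hne d).symm, d, rfl, rfl⟩
  have hMd : ∀ d, M (D.region d) → D.next d = d := by
    rintro d ⟨d', h1, h2⟩
    have := D.region_eq_of_fixed h1 h2.symm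
    rw [this]
    exact h1
  have hMrot : ∀ d, D.next d = d → rot (D.glue d) = d := fun d h => h
  have hind : ∀ d, D.region d ∈ S → D.region (D.glue d) ∉ S := by
    intro d h1 h2
    rcases h1 with h1 | h1
    · rcases h2 with h2 | h2
      · have e1 := hMrot _ (hMd _ h1)
        have e2 := hMrot _ (hMd _ h2)
        rw [D.glue_glue] at e2
        rw [← e2] at e1
        have e3 := congrArg Prod.snd e1
        change d.2 + 1 + 1 = d.2 at e3
        rw [add_assoc] at e3
        have : (1 : ZMod 4) + 1 = 0 := by simpa using e3
        exact absurd this (by decide)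
      · exact h2.2 _ (hadj d).symm h1
    · rcases h2 with h2 | h2
      · exact h1.2 _ (hadj d) h2
      · have := hχ d
        rw [hTχ _ h1.1, hTχ _ h2.1] at this
        exact hne1 _ this.symm
  have hoppS : ∀ d, D.region d ∈ S → D.region (rot (rot d)) ∈ S →
      D.region (rot d) = D.region (rot (rot (rot d))) := by
    have hM1 : ∀ d, M (D.region d) → D.region (rot d) = D.region (rot (rot (rot d))) := by
      intro d h
      have e1 := hMrot _ (hMd _ h)
      have e2 : D.glue d = rot (rot (rot d)) := by
        rw [← hrot4 (D.glue d), e1]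
      rw [D.region_rot, e2]
    intro d h1 h2
    rcases h1 with h1 | h1
    · exact hM1 d h1
    · rcases h2 with h2 | h2
      · have := hM1 _ h2
        rw [hrot4] at this
        exact this.symm
      · by_cases he : D.region d = D.region (rot (rot d))
        · exfalso
          obtain ⟨c, i⟩ := d
          have e2 : i + 1 + 1 = i + 2 := by rw [add_assoc]; congr 1
          have e3 : i + 1 + 1 + 1 = i + 3 := by rw [add_assoc, add_assoc]; congr 1
          rw [rot_mk, rot_mk, e2] at he
          rcases hopp c i he with h3 | h3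
          · refine h1.2 (D.region (c, i + 1)) ?_ ⟨_, h3, rfl⟩
            have := hadj (c, i)
            rw [← D.region_rot, rot_mk] at this
            exact this
          · refine h1.2 (D.region (c, i + 3)) ?_ ⟨_, h3, rfl⟩
            have := hadj (c, i + 3)
            rw [← D.region_rot, rot_mk] at this
            have e4 : i + 3 + 1 = i := by
              have : (3 : ZMod 4) + 1 = 0 := by decide
              rw [add_assoc, this, add_zero]
            rw [e4] at this
            exact this.symm
        · exact absurd ⟨d, rfl, rfl⟩ (hTind _ h1.1 _ h2.1 he)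
  refine ⟨S, ?_, D.connected_compl hns S hind hoppS hne, ?_⟩
  · intro R hR R' hR' _ hRR'
    obtain ⟨_, d, rfl, rfl⟩ := hRR'
    exact hind d hR hR'
  · -- an injection from T to S
    have hex : ∀ R : D.Region, ∃ R', (R ∈ T → R' ∈ S) ∧ (R ∈ T → N R → R' = R) ∧
        (R ∈ T → ¬ N R → D.dual.Adj R R' ∧ M R') := by
      intro R
      by_cases hR : R ∈ T
      · by_cases hN : N R
        · exact ⟨R, fun _ => Or.inr hN, fun _ _ => rfl, fun _ h => absurd hN h⟩
        · have h2 : ∃ R', D.dual.Adj R R' ∧ M R' := by
            by_contra hcon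
            push Not at hcon
            exact hN ⟨hR, hcon⟩
          obtain ⟨R', h3, h4⟩ := h2
          exact ⟨R', fun _ => Or.inl h4, fun _ h => absurd h hN, fun _ _ => ⟨h3, h4⟩⟩
      · exact ⟨R, fun h => absurd h hR, fun h => absurd h hR, fun h => absurd h hR⟩
    choose g hg1 hg2 hg3 using hex
    have hadjχ : ∀ R R', D.dual.Adj R R' → χ R' = χ R + 1 := by
      rintro R R' ⟨_, d, rfl, rfl⟩
      exact hχ d
    have hMadj : ∀ R R' R'', M R' → D.dual.Adj R R' → D.dual.Adj R'' R' → R = R'' := by
      rintro R R' R'' ⟨d, hd, rfl⟩ h1 h2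
      obtain ⟨_, e, he1, he2⟩ := h1.symm
      obtain ⟨_, e', he1', he2'⟩ := h2.symm
      have h3 := D.region_eq_of_fixed hd he1
      have h4 := D.region_eq_of_fixed hd he1'
      rw [← he2, ← he2', h3, h4]
    have hinj : Set.InjOn g (T : Set D.Region) := by
      intro R₁ h₁ R₂ h₂ he
      have h₁' : R₁ ∈ T := h₁
      have h₂' : R₂ ∈ T := h₂
      by_cases n₁ : N R₁
      · by_cases n₂ : N R₂
        · rw [← hg2 _ h₁' n₁, ← hg2 _ h₂' n₂]
          exact he
        · exfalso
          have e1 := hadjχ _ _ (hg3 _ h₂' n₂).1
          rw [← he, hg2 _ h₁' n₁, hTχ _ h₁', hTχ _ h₂'] at e1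
          exact hne1 _ e1.symm
      · by_cases n₂ : N R₂
        · exfalso
          have e1 := hadjχ _ _ (hg3 _ h₁' n₁).1
          rw [he, hg2 _ h₂' n₂, hTχ _ h₁', hTχ _ h₂'] at e1
          exact hne1 _ e1.symm
        · have a1 := hg3 _ h₁' n₁
          have a2 := hg3 _ h₂' n₂
          rw [he] at a1
          exact hMadj _ _ _ a2.2 a1.1 a2.1
    have hTS : T.card ≤ S.ncard := by
      rw [← Set.ncard_coe_finset]
      refine Set.ncard_le_ncard_of_injOn g ?_ hinj (Set.toFinite S)
      intro R hR
      exact hg1 R hR
    omega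

end Projection

/-- **Full answer to Q1.** There is a constant `δ > 0` such that for every reduced non-split link
diagram with `n` crossings the dual graph contains a non-separating independent set with at least
`δ n` vertices. -/
theorem result : ∃ δ : ℝ, 0 < δ ∧ ∀ (n : ℕ) (D : Projection n), D.Planar → D.NonSplit →
    D.Reduced → ∃ S : Set D.Region, D.dual.IsIndepSet S ∧ (D.dual.induce Sᶜ).Connected ∧
      δ * n ≤ S.ncard := by
  refine ⟨1 / 32, by norm_num, fun n D hpl hns hred => ?_⟩
  obtain ⟨S, h1, h2, h3⟩ := D.exists_set hns hpl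
    (fun c i h => D.opposite_corners hns hpl c (hred c) i h)
  refine ⟨S, h1, h2, ?_⟩
  have : (n : ℝ) ≤ 32 * (S.ncard : ℝ) := by exact_mod_cast h3
  linarith

end Pool.Agent.Results.MP_1d20a2_co.LinearNonSeparating
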